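import Pool.Agent.Lib.MP_229ad9_gt.XTube

set_option autoImplicit false

namespace Pool.Agent.Results.MP_229ad9_gt.ExactFormula

open Pool.Agent.Lib.MP_229ad9_gt

/-- The least measure of the neighbourhood of an `m`-transversal set is attained by half of a great
sphere of dimension `n - m`, and is given by an explicit formula. -/
theorem result (n m : ℕ) (hm : 1 ≤ m) (hn : m < n) (ε : ℝ) (hε : 0 < ε) :
    Transversal m (half n (n - m)) ∧ mu n m ε = sig (nbhd (half n (n - m)) ε) ∧
    mu n m ε = (tube (n - m) m (Real.arccos (max 0 (1 - ε ^ 2 / 2))) +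
      tube (n - m + 1) (m - 1) (Real.arccos (max 0 (1 - ε ^ 2 / 2)))) / 2 := by
  refine ⟨half_trans hm hn.le, mu_eq hm hn.le hε.le, ?_⟩
  rw [mu_eq hm hn.le hε.le, sig_half (by omega) (by omega) hε.le,
    show n - (n - m) = m by omega]

end Pool.Agent.Results.MP_229ad9_gt.ExactFormula
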