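import Pool.Agent.Lib.T94.Ord

set_option autoImplicit false

namespace Pool.Agent.Results.MP_229ad9_gt.SubspaceOrder

open Pool.Agent.Lib.T94

theorem result (n m : ℕ) (ε δ c g : ℝ) (hm : 1 ≤ m) (hn : m < n) (hε : 0 < ε) (hε2 : ε ^ 2 < 2)
    (hc : c = 1 - ε ^ 2 / 2) (hδ : 0 < δ) (hδ1 : δ ≤ 1)
    (big : min (δ * n) (1200 / δ * √(n * Real.log n)) ≤ max (m : ℝ) (ε ^ 2 * n))
    (hg : (1 + δ) * (m * c ^ 2) ≤ (n - m) * (1 - c ^ 2) ∧ g = (n - m) * (1 - c ^ 2) ∨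
      (1 + δ) * ((n - m) * (1 - c ^ 2)) ≤ m * c ^ 2 ∧ g = min ((n : ℝ) - m) (1 / c ^ 2)) :
    δ ^ 3 / 3200 * g ≤ rmax n m ε + 1 ∧ rmax n m ε + 1 ≤ 3200 / δ ^ 3 * g :=
  order hm hn hε hε2 hc hδ hδ1 big hg

end Pool.Agent.Results.MP_229ad9_gt.SubspaceOrder
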