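import Pool.Agent.Lib.T94.Asy

set_option autoImplicit false

namespace Pool.Agent.Results.MP_229ad9_gt.SubspaceRatio

open Pool.Agent.Lib.T94 Real

theorem result (δ : ℝ) (hδ : 0 < δ) : ∃ m₀ : ℕ, ∀ (n m : ℕ) (ε α σ : ℝ), m₀ ≤ m → m < n → 0 < ε →
    ε ^ 2 < 2 → α = m / n → σ = 1 - (1 - ε ^ 2 / 2) ^ 2 →
    n * (sin (max 0 (arcsin √σ - arcsin √α)) ^ 2 - δ) ≤ rmax n m ε ∧
    (rmax n m ε : ℝ) ≤ n * (min ((1 - α) * σ) (max 0 (σ - α) / max σ (1 - α)) + δ) :=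
  asym hδ

end Pool.Agent.Results.MP_229ad9_gt.SubspaceRatio
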